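import Pool.Agent.N909.CX.Def
import Pool.Agent.N909.CM.Fin

set_option autoImplicit false
set_option linter.unusedSectionVars false

/-! # The fair random Collatz map, largest values: the upper bound (X8) -/

open MeasureTheory Filter Set ProbabilityTheory
open scoped ENNReal Topology

namespace Pool.Agent.N43.CX8

open Pool.Agent.N909.CM Pool.Agent.N909.CL Pool.Agent.N909.CX Pool.Agent.R528.RM

/-- the logarithmic series (the proof is the one of `Pool.Agent.N865.MH.Log`) -/
theorem summable_log (ε : ℝ) (hε : 0 < ε) :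
    Summable fun n : ℕ => 1 / ((n : ℝ) * (Real.log n) ^ (1 + ε)) := by
  have h0 : ∀ n : ℕ, 0 ≤ 1 / ((n : ℝ) * (Real.log n) ^ (1 + ε)) := by
    intro n
    have h1 : 0 ≤ Real.log (n : ℝ) := Real.log_natCast_nonneg n
    positivity
  rw [← summable_condensed_iff_of_eventually_nonneg (Eventually.of_forall h0)]
  · have h1 : (fun k : ℕ => (2 : ℝ) ^ k * (1 / (((2 ^ k : ℕ) : ℝ) *
        (Real.log ((2 ^ k : ℕ) : ℝ)) ^ (1 + ε)))) =
        fun k : ℕ => (1 / (Real.log 2) ^ (1 + ε)) * (1 / (k : ℝ) ^ (1 + ε)) := by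
      funext k
      push_cast
      rw [Real.log_pow, Real.mul_rpow (Nat.cast_nonneg k) (Real.log_nonneg (by norm_num))]
      have h2 : (0 : ℝ) < 2 ^ k := by positivity
      field_simp
    rw [h1]
    apply Summable.mul_left
    rw [Real.summable_one_div_nat_rpow]
    linarith
  · filter_upwards [eventually_ge_atTop 2] with k hk
    have hk' : (2 : ℝ) ≤ k := by exact_mod_cast hk
    have h1 : 0 < Real.log (k : ℝ) := Real.log_pos (by linarith)
    have h2 : Real.log (k : ℝ) ≤ Real.log ((k + 1 : ℕ) : ℝ) := by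
      apply Real.log_le_log (by linarith)
      push_cast
      linarith
    have h3 : 0 < (Real.log (k : ℝ)) ^ (1 + ε) := Real.rpow_pos_of_pos h1 _
    have h4 : (Real.log (k : ℝ)) ^ (1 + ε) ≤ (Real.log ((k + 1 : ℕ) : ℝ)) ^ (1 + ε) :=
      Real.rpow_le_rpow h1.le h2 (by linarith)
    apply one_div_le_one_div_of_le
    · positivity
    · push_cast at h4 ⊢
      apply mul_le_mul (by linarith) h4 h3.le (by linarith)

/-! ### Words -/

/-- stopping words (without the tube) -/
def Sp (Y : ℝ) (n : ℕ) (w : List Bool) : Prop :=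
  Y ≤ val n w ∧ ∀ j < w.length, (val n (w.take j) : ℝ) < Y

open Classical in
/-- the weight of a stopping word -/
noncomputable def g (Y : ℝ) (n : ℕ) (w : List Bool) : ℝ :=
  if Sp Y n w then (1 / 2 : ℝ) ^ w.length * val n w else 0

lemma g_nonneg (Y : ℝ) (n : ℕ) (w : List Bool) : 0 ≤ g Y n w := by
  unfold g
  split_ifs
  · positivity
  · exact le_rfl

lemma g_nil_le (Y : ℝ) (n : ℕ) : g Y n [] ≤ n := by
  unfold g
  split_ifs
  · simp [val]
  · positivity

lemma g_nil_of_lt {Y : ℝ} {n : ℕ} (h : (n : ℝ) < Y) : g Y n [] = 0 := by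
  unfold g
  rw [if_neg]
  intro h1
  have := h1.1
  simp only [val] at this
  linarith

lemma g_cons_of_le {Y : ℝ} {n : ℕ} (h : Y ≤ n) (d : Bool) (w : List Bool) : g Y n (d :: w) = 0 := by
  unfold g
  rw [if_neg]
  intro h1
  have := h1.2 0 (by simp)
  simp only [List.take_zero, val] at this
  linarith

lemma Sp_cons {Y : ℝ} {n : ℕ} (h : (n : ℝ) < Y) (d : Bool) (w : List Bool) :
    Sp Y n (d :: w) ↔ Sp Y (stp d n) w := by
  unfold Sp
  simp only [val]
  refine and_congr Iff.rfl ⟨fun h1 j hj => ?_, fun h1 j hj => ?_⟩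
  · have := h1 (j + 1) (by simp only [List.length_cons]; omega)
    simpa only [List.take_succ_cons, val] using this
  · rcases j with _ | j
    · simpa only [List.take_zero, val] using h
    · simp only [List.take_succ_cons, val]
      exact h1 j (by simp only [List.length_cons] at hj; omega)

lemma g_cons {Y : ℝ} {n : ℕ} (h : (n : ℝ) < Y) (d : Bool) (w : List Bool) :
    g Y n (d :: w) = 1 / 2 * g Y (stp d n) w := by
  unfold g
  by_cases h1 : Sp Y (stp d n) w
  · rw [if_pos h1, if_pos ((Sp_cons h d w).2 h1)]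
    simp only [List.length_cons, val]
    ring
  · rw [if_neg h1, if_neg (fun h2 => h1 ((Sp_cons h d w).1 h2))]
    ring

lemma stp_add (n : ℕ) : stp true n + stp false n = 2 * n := by
  simp only [stp, if_true, Bool.false_eq_true, if_false]
  omega

lemma sum_Wd (k : ℕ) (f : List Bool → ℝ) (hf : ∀ w, 0 ≤ f w) :
    ∑ w ∈ Wd (k + 1), f w ≤ f [] + (∑ w ∈ Wd k, f (true :: w) + ∑ w ∈ Wd k, f (false :: w)) := by
  have hun : ∀ A B : Finset (List Bool), ∑ w ∈ A ∪ B, f w ≤ ∑ w ∈ A, f w + ∑ w ∈ B, f w := by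
    intro A B
    have := Finset.sum_union_inter (f := f) (s₁ := A) (s₂ := B)
    have h2 : 0 ≤ ∑ w ∈ A ∩ B, f w := Finset.sum_nonneg fun w _ => hf w
    linarith
  have h1 : ∀ d : Bool, ∑ w ∈ (Wd k).image (fun w => d :: w), f w = ∑ w ∈ Wd k, f (d :: w) := by
    intro d
    rw [Finset.sum_image]
    intro a _ b _ hab
    exact (List.cons.inj hab).2
  rw [Wd]
  refine (hun _ _).trans (add_le_add (by simp) ((hun _ _).trans ?_))
  rw [h1, h1]

lemma sum_g_le (Y : ℝ) (k : ℕ) : ∀ n : ℕ, ∑ w ∈ Wd k, g Y n w ≤ n := by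
  induction k with
  | zero =>
    intro n
    rw [Wd, Finset.sum_singleton]
    exact g_nil_le Y n
  | succ k ih =>
    intro n
    refine (sum_Wd k (g Y n) (g_nonneg Y n)).trans ?_
    rcases le_or_gt Y n with h | h
    · have h1 : ∀ d : Bool, ∑ w ∈ Wd k, g Y n (d :: w) = 0 := fun d =>
        Finset.sum_eq_zero fun w _ => g_cons_of_le h d w
      rw [h1, h1, add_zero, add_zero]
      exact g_nil_le Y n
    · have h1 : ∀ d : Bool, ∑ w ∈ Wd k, g Y n (d :: w) = 1 / 2 * ∑ w ∈ Wd k, g Y (stp d n) w := by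
        intro d
        rw [Finset.mul_sum]
        exact Finset.sum_congr rfl fun w _ => g_cons h d w
      rw [h1, h1, g_nil_of_lt h, zero_add]
      have h2 := ih (stp true n)
      have h3 := ih (stp false n)
      have h4 : ((stp true n : ℕ) : ℝ) + ((stp false n : ℕ) : ℝ) = 2 * n := by
        exact_mod_cast stp_add n
      linarith

lemma mem_Wd (k : ℕ) : ∀ w : List Bool, w.length ≤ k → w ∈ Wd k := by
  induction k with
  | zero =>
    intro w hw
    rw [List.length_eq_zero_iff.1 (Nat.le_zero.1 hw), Wd]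
    exact Finset.mem_singleton_self _
  | succ k ih =>
    intro w hw
    rw [Wd]
    rcases w with _ | ⟨d, w⟩
    · simp
    · have h1 := ih w (by simpa using hw)
      rw [Finset.mem_union, Finset.mem_union]
      right
      rcases d with _ | _
      · right
        exact Finset.mem_image_of_mem _ h1
      · left
        exact Finset.mem_image_of_mem _ h1

section prob

variable {Ω : Type} {m0 : MeasurableSpace Ω} {μ : Measure Ω} [IsProbabilityMeasure μ]
  {B : ℕ → Set Ω}

open Classical in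
/-- the word of the first `i` decisions -/
noncomputable def wd (B : ℕ → Set Ω) (ω : Ω) : ℕ → ℕ → List Bool
  | 0, _ => []
  | i + 1, n => decide (ω ∈ B n) :: wd B ω i (T B ω n)

lemma stp_T (ω : Ω) (n : ℕ) [Decidable (ω ∈ B n)] : stp (decide (ω ∈ B n)) n = T B ω n := by
  unfold stp T
  by_cases h : ω ∈ B n
  · simp [h]
  · simp [h]

lemma wd_length (ω : Ω) (i : ℕ) : ∀ n, (wd B ω i n).length = i := by
  induction i with
  | zero => intro n; rfl
  | succ i ih => intro n; rw [wd, List.length_cons, ih]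

lemma wd_take (ω : Ω) (i : ℕ) : ∀ (n j : ℕ), j ≤ i → (wd B ω i n).take j = wd B ω j n := by
  induction i with
  | zero =>
    intro n j hj
    rw [Nat.le_zero.1 hj]
    rfl
  | succ i ih =>
    intro n j hj
    rcases j with _ | j
    · rfl
    · rw [wd, wd, List.take_succ_cons, ih _ _ (by omega)]

lemma wd_val (ω : Ω) (i : ℕ) : ∀ n, val n (wd B ω i n) = (T B ω)^[i] n := by
  induction i with
  | zero => intro n; rfl
  | succ i ih =>
    intro n
    rw [wd, val, stp_T, ih, Function.iterate_succ_apply]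

lemma wd_Rz (ω : Ω) (i : ℕ) : ∀ n, ω ∈ Rz B n (wd B ω i n) := by
  classical
  induction i with
  | zero => intro n; exact mem_univ _
  | succ i ih =>
    intro n
    rw [wd, Rz]
    refine ⟨?_, ?_⟩
    · change ω ∈ B n ↔ _
      simp only [decide_eq_true_eq]
    · rw [stp_T]
      exact ih _

lemma wd_pos (ω : Ω) (i : ℕ) : ∀ n, pos n (wd B ω i n) = (List.range i).map (fun j => (T B ω)^[j] n) := by
  induction i with
  | zero => intro n; rfl
  | succ i ih =>
    intro n
    rw [wd, pos, stp_T, ih, List.range_succ_eq_map, List.map_cons, List.map_map]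
    rfl

lemma orb_word {ω : Ω} {n x : ℕ} {Y : ℝ} (hx : x ∈ orb (T B ω) n) (hY : Y ≤ x) :
    ∃ w : List Bool, Sp Y n w ∧ (pos n w).Nodup ∧ ω ∈ Rz B n w := by
  classical
  obtain ⟨k, hk⟩ := hx
  have hex : ∃ i, Y ≤ (((T B ω)^[i] n : ℕ) : ℝ) := ⟨k, by
    have : (T B ω)^[k] n = x := hk
    rw [this]
    exact hY⟩
  obtain ⟨i, hi, hmin⟩ : ∃ i, Y ≤ (((T B ω)^[i] n : ℕ) : ℝ) ∧
      ∀ j < i, (((T B ω)^[j] n : ℕ) : ℝ) < Y :=
    ⟨Nat.find hex, Nat.find_spec hex, fun j hj => not_le.1 (Nat.find_min hex hj)⟩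
  refine ⟨wd B ω i n, ⟨?_, ?_⟩, ?_, wd_Rz ω i n⟩
  · rw [wd_val]
    exact hi
  · intro j hj
    rw [wd_length] at hj
    rw [wd_take ω i n j hj.le, wd_val]
    exact hmin j hj
  · rw [wd_pos]
    refine List.Nodup.map_on ?_ List.nodup_range
    have key : ∀ a b : ℕ, a < b → b < i → (T B ω)^[a] n ≠ (T B ω)^[b] n := by
      intro a b hab hb h
      have h1 : (T B ω)^[i] n = (T B ω)^[i - (b - a)] n := by
        have e1 : i = (i - b) + b := by omega
        have e2 : i - (b - a) = (i - b) + a := by omega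
        rw [e2]
        conv_lhs => rw [e1]
        rw [Function.iterate_add_apply, Function.iterate_add_apply, h]
      have h2 := hmin (i - (b - a)) (by omega)
      rw [← h1] at h2
      linarith
    intro a ha b hb h
    rw [List.mem_range] at ha hb
    rcases lt_trichotomy a b with h1 | h1 | h1
    · exact absurd h (key a b h1 hb)
    · exact h1
    · exact absurd h.symm (key b a h1 ha)

/-- the probability of a large value -/
lemma prob_le (h5 : ∀ (n : ℕ) (w : List Bool), (pos n w).Nodup → μ.real (Rz B n w) = (1 / 2) ^ w.length)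
    (n : ℕ) {Y : ℝ} (hY : 0 < Y) :
    μ.real {ω | ∃ x ∈ orb (T B ω) n, Y ≤ (x : ℝ)} ≤ n / Y := by
  classical
  obtain ⟨A, hA⟩ : ∃ A : List Bool → Set Ω, A = fun w =>
    if Sp Y n w ∧ (pos n w).Nodup then Rz B n w else ∅ := ⟨_, rfl⟩
  have hsub : {ω | ∃ x ∈ orb (T B ω) n, Y ≤ (x : ℝ)} ⊆ ⋃ w, A w := by
    rintro ω ⟨x, hx, hxY⟩
    obtain ⟨w, h1, h2, h3⟩ := orb_word hx hxY
    refine mem_iUnion.2 ⟨w, ?_⟩
    rw [hA]
    simp only
    rw [if_pos ⟨h1, h2⟩]
    exact h3
  have hw : ∀ w, μ (A w) ≤ ENNReal.ofReal (g Y n w / Y) := by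
    intro w
    rw [hA]
    simp only
    by_cases h : Sp Y n w ∧ (pos n w).Nodup
    · rw [if_pos h, ← ofReal_measureReal (measure_ne_top μ _), h5 n w h.2]
      apply ENNReal.ofReal_le_ofReal
      rw [le_div_iff₀ hY]
      unfold g
      rw [if_pos h.1]
      exact mul_le_mul_of_nonneg_left h.1.1 (by positivity)
    · rw [if_neg h, measure_empty]
      exact zero_le
  have hle : μ (⋃ w, A w) ≤ ENNReal.ofReal (n / Y) := by
    refine (measure_iUnion_le A).trans ?_
    rw [ENNReal.tsum_eq_iSup_sum]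
    refine iSup_le fun F => ?_
    calc ∑ w ∈ F, μ (A w) ≤ ∑ w ∈ F, ENNReal.ofReal (g Y n w / Y) := Finset.sum_le_sum fun w _ => hw w
      _ = ENNReal.ofReal (∑ w ∈ F, g Y n w / Y) := by
          rw [ENNReal.ofReal_sum_of_nonneg fun w _ => div_nonneg (g_nonneg Y n w) hY.le]
      _ ≤ ENNReal.ofReal (n / Y) := by
          apply ENNReal.ofReal_le_ofReal
          rw [← Finset.sum_div]
          apply div_le_div_of_nonneg_right _ hY.le
          have hF : F ⊆ Wd (F.sup List.length) := fun w hw => mem_Wd _ w (Finset.le_sup hw)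
          exact (Finset.sum_le_sum_of_subset_of_nonneg hF fun w _ _ => g_nonneg Y n w).trans
            (sum_g_le Y _ n)
  have h2 : μ {ω | ∃ x ∈ orb (T B ω) n, Y ≤ (x : ℝ)} ≤ ENNReal.ofReal (n / Y) :=
    (measure_mono hsub).trans hle
  exact ENNReal.toReal_le_of_le_ofReal (by positivity) h2

/-- all orbits are finite -/
lemma fin (hB : ∀ n, MeasurableSet (B n)) (hi : iIndepSet B μ) (hh : ∀ n, μ.real (B n) = 1 / 2) :
    ∀ᵐ ω ∂μ, ∀ n, (orb (T B ω) n).Finite := by
  refine all_finite (ℱ := filtrationOfSet hB) (fun n => ?_) ?_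
  · exact measurableSet_filtrationOfSet' hB n
  · have h1 : ∀ᵐ ω ∂μ, ∀ n, dens μ (filtrationOfSet hB) B n ω = 1 / 2 := by
      rw [ae_all_iff]
      intro n
      have h2 := hi.condExp_indicator_filtrationOfSet_ae_eq hB (Nat.lt_succ_self n)
      filter_upwards [h2] with ω hω
      unfold dens
      rw [← hh (n + 1)]
      exact hω
    filter_upwards [h1] with ω hω
    simp only [hω]
    exact tendsto_const_nhds

end prob

theorem t (h5 : Stm5) : Stm8 := by
  intro Ω m0 μ _ B hB hi hh ε hε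
  obtain ⟨-, h52, -, -⟩ := h5 μ B hB hi hh
  have hbc := bc_real (μ := μ) (s := fun n : ℕ => {ω | ∃ x ∈ orb (T B ω) n,
    ((n : ℝ) ^ 2 * Real.log n ^ (1 + ε)) ≤ (x : ℝ)}) (summable_log ε hε) (by
      filter_upwards [eventually_ge_atTop 3] with n hn
      have hn3 : (3 : ℝ) ≤ n := by exact_mod_cast hn
      have hlog : 0 < Real.log n := Real.log_pos (by linarith)
      have hp : 0 < Real.log n ^ (1 + ε) := Real.rpow_pos_of_pos hlog _
      refine (prob_le h52 n (Y := (n : ℝ) ^ 2 * Real.log n ^ (1 + ε)) (by positivity)).trans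
        (le_of_eq ?_)
      field_simp)
  filter_upwards [fin hB hi hh, hbc] with ω h1 h2
  refine ⟨h1, ?_⟩
  filter_upwards [h2] with n hn x hx
  by_contra hcon
  exact hn ⟨x, hx, (not_le.1 hcon).le⟩

end Pool.Agent.N43.CX8
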